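import Pool.Agent.Helper39K9.TD.Sem
import Pool.Agent.Helper39K9.TD.Diag

/-!
# MP_f36693_lc: not every degree below `0^(ω)` is the degree of a theory with a computable model

There is a Turing degree `d ≤ 0^(ω)` such that no complete theory of degree `d` has a computable
model; in particular no countably categorical theory of degree `d` has a computable model, so the
answer to Q1 is no.  The degree `d` is not `0`, and every complete theory that has a computable
model and is computable in `d` is decidable.

The signatures, structures, formulas, Goedel numbers and theories are those of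
`Pool.Agent.Helper39K9.TD.Defs` (full first-order logic with equality, relation and function
symbols; the universe of a computable structure is a computable set of natural numbers).

Method.  The theories of all computable structures are many-one reducible to `0^(ω)`, hence occur
in a sequence of sets that is uniformly computable in `0^(ω)`.  A set `X` computable in `0^(ω)` is
built by finite extensions: given a Turing functional `Φ`, a computable function `r` and a string
`σ`, look for two extensions of `σ` on which `Φ` gives different values at some `n`.  If they
exist, one of them gives the wrong value for the set `{n | r n ∈ 0^(ω)}`; if they do not exist,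
everything `Φ` computes from an extension of `σ` is computable.
-/

set_option autoImplicit false

namespace Pool.Agent.Results.MP_f36693_lc.NotEveryDegree

open Encodable
open Pool.Agent.Helper39K9.TD

open Classical in
/-- The characteristic function of a set, as an oracle. -/
noncomputable def chi (S : Set ℕ) : ℕ →. ℕ := fun n => Part.some (if n ∈ S then 1 else 0)

open Classical in
/-- The string of the first `k` values of the characteristic function of `A`. -/
noncomputable def initial (A : Set ℕ) (k : ℕ) : List Bool :=
  (List.range k).map fun n => decide (n ∈ A)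

/-- The `e`-th set that is computably enumerable relative to `A`: all `n` such that the `e`-th
program halts on the input consisting of `n` and some initial segment of `A`. -/
def WE (A : Set ℕ) (e : ℕ) : Set ℕ :=
  {n | ∃ k : ℕ, ((Denumerable.ofNat Nat.Partrec.Code e).eval (encode (initial A k, n))).Dom}

/-- The Turing jump of `A`. -/
def jump (A : Set ℕ) : Set ℕ := {e | e ∈ WE A e}

/-- The set `∅^(n)`, the `n`-th jump of the empty set. -/
def zeroJump (n : ℕ) : Set ℕ := jump^[n] ∅

/-- The set `{⟨n, x⟩ | x ∈ ∅^(n)}` of degree `0^(ω)`. -/
def zeroOmega : Set ℕ := {m | m.unpair.2 ∈ zeroJump m.unpair.1}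

/-- The complete theory `T` of signature `L` has a computable model. -/
def HasComputableModel (L : Sig) (T : Set Fml) : Prop :=
  ∃ A : Str, A.IsStr L ∧ A.IsComputable L ∧ IsModel A T

open Classical in
/-- characteristic sequence -/
noncomputable def ch (S : Set ℕ) : ℕ → Bool := fun n => decide (n ∈ S)

theorem chi_eq (S : Set ℕ) : chi S = Pool.Agent.Helper227.chi (ch S) := by
  funext n
  unfold chi ch Pool.Agent.Helper227.chi
  split_ifs with h <;> simp [h]

theorem ch_jump (A : Set ℕ) : ch (jump A) = Pool.Agent.Helper227.jump (ch A) := by
  funext e
  rw [Bool.eq_iff_iff, Pool.Agent.Helper227.jump_eq_true]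
  simp only [ch, decide_eq_true_eq]
  rfl

theorem ch_zeroJump (n : ℕ) : ch (zeroJump n) = Pool.Agent.H685R3.jn (fun _ => false) n := by
  induction n with
  | zero =>
    funext m
    simp [ch, zeroJump, Pool.Agent.H685R3.jn]
  | succ n ih =>
    unfold zeroJump at ih ⊢
    rw [Function.iterate_succ_apply', ch_jump, ih]
    rfl

theorem ch_zeroOmega : ch zeroOmega = Zo := by
  funext m
  show _ = Pool.Agent.H685R3.om _ m
  unfold Pool.Agent.H685R3.om
  rw [← ch_zeroJump, Bool.eq_iff_iff]
  simp only [ch, decide_eq_true_eq]
  rfl

/-- The jump of `A` is computably enumerable relative to `A`, and every set `W` which is computably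
enumerable relative to `A` (the domain of a partial function recursive in `A`) is many-one
reducible to it.  (This is not used below; it shows that `jump` is the Turing jump.) -/
theorem jump_complete (A : Set ℕ) :
    (∃ f : ℕ →. ℕ, TuringReducible f (chi A) ∧ ∀ n, n ∈ jump A ↔ (f n).Dom) ∧
    ∀ f : ℕ →. ℕ, TuringReducible f (chi A) →
      ∃ g : ℕ → ℕ, Computable g ∧ ∀ n, (f n).Dom ↔ g n ∈ jump A := by
  have h1 : ∀ e, e ∈ jump A ↔ Pool.Agent.Helper227.jump (ch A) e = true := by
    intro e
    rw [← ch_jump]
    simp [ch]
  rw [chi_eq]
  constructor
  · have h2 := Pool.Agent.Helper227.si_jump (ch A)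
    have h3 := (Pool.Agent.Helper227.SI.iff_ceIn (B := ch A)
      (W := {e | Pool.Agent.Helper227.jump (ch A) e = true})).2 h2
    obtain ⟨f, hf, h4⟩ := h3
    exact ⟨f, hf, fun n => (h1 n).trans (h4 n)⟩
  · intro f hf
    have h2 : Pool.Agent.Helper227.CEIn (ch A) {n | (f n).Dom} := ⟨f, hf, fun n => Iff.rfl⟩
    obtain ⟨g, hg, h3⟩ := (Pool.Agent.Helper227.SI.iff_ceIn.1 h2).to_jump
    exact ⟨g, hg, fun n => (h3 n).trans (h1 _).symm⟩

/-- **Q1 of MP_f36693_lc, answer no.** There is a set `X` with `deg X ≤ 0^(ω)` such that for every
computable signature `L` and every complete theory `T` of signature `L` with a computable model: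
the degree of `T` is not the degree of `X`; moreover `X` is not computable and, if `T` is
computable in `X`, then `T` is decidable. -/
theorem result : ∃ X : Set ℕ, TuringReducible (chi X) (chi zeroOmega) ∧
    (¬ ComputablePred fun n => n ∈ X) ∧
    ∀ (L : Sig) (T : Set Fml), L.IsComputable → IsComplete L T → HasComputableModel L T →
      ¬ TuringEquivalent (chi (codes T)) (chi X) ∧
      (TuringReducible (chi (codes T)) (chi X) → ComputablePred fun n => n ∈ codes T) := by
  classical
  obtain ⟨X, h1, h2, h3⟩ := exists_X
  have hX : ch {n | X n = true} = X := by
    funext n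
    simp [ch]
  have hcp : ∀ S : Set ℕ, Computable (ch S) ↔ ComputablePred fun n => n ∈ S := by
    intro S
    constructor
    · intro h
      exact ComputablePred.computable_iff.2 ⟨ch S, h, by funext n; simp [ch]⟩
    · intro h
      obtain ⟨f, hf, e⟩ := ComputablePred.computable_iff.1 h
      have : ch S = f := by
        funext n
        rw [Bool.eq_iff_iff]
        have := congrFun e n
        simp only [ch, decide_eq_true_eq]
        simpa using this
      rw [this]
      exact hf
  refine ⟨{n | X n = true}, ?_, ?_, ?_⟩
  · rw [chi_eq, chi_eq, hX, ch_zeroOmega]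
    exact h1
  · rw [← hcp, hX]
    exact h2
  · intro L T hL hT ⟨A, hA, hc, hM⟩
    have hTh := eq_Th hT hM
    obtain ⟨r, hr, er⟩ := Th_red hL hA hc
    have hch : ch (codes T) = fun n => Zo (r n) := by
      funext n
      rw [Bool.eq_iff_iff, hTh]
      simp only [ch, decide_eq_true_eq]
      exact er n
    have key : TuringReducible (chi (codes T)) (chi {n | X n = true}) →
        ComputablePred fun n => n ∈ codes T := by
      intro h
      rw [chi_eq, chi_eq, hX, hch] at h
      rw [← hcp, hch]
      exact h3 r hr h
    refine ⟨?_, key⟩
    rintro ⟨h4, h5⟩
    have h6 := (hcp _).2 (key h4)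
    apply h2
    rw [Pool.Agent.Helper227.computable_iff_tLe] at h6 ⊢
    rw [chi_eq, chi_eq, hX] at h5
    exact Pool.Agent.Helper227.TLe.trans h5 h6

end Pool.Agent.Results.MP_f36693_lc.NotEveryDegree
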